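import Pool.Agent.W719.AX.Ker
import Pool.Agent.W571.FE.EM
import Pool.Agent.H776R3.GapVol.Sine

/-! AX-EMS: expansion of `S_d`. -/

set_option autoImplicit false

namespace Pool.Agent.W681.AX

open Finset Filter Topology Metric MeasureTheory
open Pool.Agent.W711.HT Pool.Agent.W719.AX
open scoped Real

/-- the function -/
noncomputable def FF (w : ℂ) : ℂ := Complex.log (2 * Complex.sin (π * w))

/-- the strip -/
def U : Set ℂ := {w | 0 < w.re ∧ w.re < 1}

theorem isOpen_U : IsOpen U :=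
  (isOpen_lt continuous_const Complex.continuous_re).inter
    (isOpen_lt Complex.continuous_re continuous_const)

theorem sin_re_pos {w : ℂ} (hw : w ∈ U) : 0 < (2 * Complex.sin (π * w)).re := by
  have h0 : ((π : ℂ) * w) = ((π * w.re : ℝ) : ℂ) + ((π * w.im : ℝ) : ℂ) * Complex.I := by
    apply Complex.ext <;> simp
  have h1 : ((2 : ℂ) * Complex.sin (π * w)).re =
      2 * (Real.sin (π * w.re) * Real.cosh (π * w.im)) := by
    have h5 : (2 : ℂ) * Complex.sin (π * w) =
        ((2 * (Real.sin (π * w.re) * Real.cosh (π * w.im)) : ℝ) : ℂ) +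
        ((2 * (Real.cos (π * w.re) * Real.sinh (π * w.im)) : ℝ) : ℂ) * Complex.I := by
      rw [h0, Complex.sin_add_mul_I, ← Complex.ofReal_sin, ← Complex.ofReal_cosh,
        ← Complex.ofReal_cos, ← Complex.ofReal_sinh]
      push_cast
      ring
    rw [h5, Complex.add_re, Complex.ofReal_re, Complex.mul_re, Complex.I_re, Complex.I_im,
      Complex.ofReal_im]
    ring
  rw [h1]
  have h2 : 0 < Real.sin (π * w.re) := by
    apply Real.sin_pos_of_pos_of_lt_pi
    · exact mul_pos Real.pi_pos hw.1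
    · have := hw.2
      nlinarith [Real.pi_pos]
  have h3 := Real.cosh_pos (π * w.im)
  positivity

theorem diff_FF {w : ℂ} (hw : w ∈ U) : DifferentiableAt ℂ FF w := by
  unfold FF
  apply DifferentiableAt.clog
  · fun_prop
  · exact Or.inl (sin_re_pos hw)

theorem diffOn_FF : DifferentiableOn ℂ FF U := fun _ hw => (diff_FF hw).differentiableWithinAt

theorem diffOn_iter (k : ℕ) : DifferentiableOn ℂ (iteratedDeriv k FF) U := by
  have h := (diffOn_FF.analyticOnNhd isOpen_U).iterated_deriv k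
  rw [← iteratedDeriv_eq_iterate] at h
  exact h.differentiableOn

/-- the coefficients -/
noncomputable def vv (b : ℕ → ℝ) (k : ℕ) (δ : ℂ) : ℂ :=
  (if k = 0 then FF δ else 0) - (b k : ℂ) * (iteratedDeriv k FF (1 - δ) - iteratedDeriv k FF δ)

theorem one_sub_mem {w : ℂ} (hw : w ∈ U) : 1 - w ∈ U := by
  have h1 := hw.1
  have h2 := hw.2
  constructor
  · simp only [Complex.sub_re, Complex.one_re]; linarith
  · simp only [Complex.sub_re, Complex.one_re]; linarith

theorem diffOn_vv (b : ℕ → ℝ) (k : ℕ) : DifferentiableOn ℂ (vv b k) U := by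
  unfold vv
  have h1 : DifferentiableOn ℂ (fun δ : ℂ => iteratedDeriv k FF (1 - δ)) U :=
    (diffOn_iter k).comp (by fun_prop) (fun w hw => one_sub_mem hw)
  have h2 : DifferentiableOn ℂ (fun δ : ℂ => if k = 0 then FF δ else 0) U := by
    by_cases hk : k = 0
    · simp only [if_pos hk]; exact diffOn_FF
    · simp only [if_neg hk]; exact differentiableOn_const _
  exact h2.sub ((h1.sub (diffOn_iter k)).const_mul _)

theorem ball_sub : closedBall (1 / 4 : ℂ) (1 / 16) ⊆ U := by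
  intro w hw
  rw [mem_closedBall, dist_eq_norm] at hw
  have h1 := (Complex.abs_re_le_norm (w - 1 / 4)).trans hw
  have h2 : (w - 1 / 4).re = w.re - 1 / 4 := by
    rw [Complex.sub_re]
    norm_num
  rw [h2, abs_le] at h1
  constructor
  · linarith [h1.1]
  · linarith [h1.2]

theorem bound_vv (b : ℕ → ℝ) (k : ℕ) :
    ∃ B : ℝ, ∀ δ ∈ ball (1 / 4 : ℂ) (1 / 16), ‖vv b k δ‖ ≤ B := by
  obtain ⟨B, hB⟩ := (isCompact_closedBall (1 / 4 : ℂ) (1 / 16)).exists_bound_of_continuousOn
    ((diffOn_vv b k).continuousOn.mono ball_sub)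
  exact ⟨B, fun δ hδ => hB δ (ball_subset_closedBall hδ)⟩

/-- the compact rectangle -/
def Kc : Set ℂ := Set.Icc (1 / 8 : ℝ) (7 / 8) ×ℂ Set.Icc (-1 : ℝ) 1

theorem Kc_sub : Kc ⊆ U := by
  intro w hw
  rw [Kc, Complex.mem_reProdIm] at hw
  constructor
  · linarith [hw.1.1]
  · linarith [hw.1.2]

theorem bound_FF : ∃ B : ℝ, 0 ≤ B ∧ ∀ w ∈ Kc, ‖FF w‖ ≤ B := by
  obtain ⟨B, hB⟩ := (isCompact_Icc.reProdIm isCompact_Icc).exists_bound_of_continuousOn
    (diffOn_FF.continuousOn.mono Kc_sub)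
  exact ⟨max B 0, le_max_right _ _, fun w hw => (hB w hw).trans (le_max_left _ _)⟩

/-! ### the integral -/

/-- the real function -/
noncomputable def gg (t : ℝ) : ℝ := Real.log (2 * Real.sin (π * t))

theorem FF_real {t : ℝ} (h0 : 0 ≤ t) (h1 : t ≤ 1) : FF t = (gg t : ℂ) := by
  unfold FF gg
  have h2 : 0 ≤ 2 * Real.sin (π * t) := by
    apply mul_nonneg (by norm_num)
    apply Real.sin_nonneg_of_nonneg_of_le_pi
    · exact mul_nonneg Real.pi_pos.le h0
    · nlinarith [Real.pi_pos]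
  rw [Complex.ofReal_log h2]
  congr 1
  push_cast
  rfl

theorem gg_int (a b : ℝ) (ha : 0 ≤ a) (hb : b ≤ 1) (hab : a ≤ b) :
    IntervalIntegrable gg volume a b := by
  have h1 : IntervalIntegrable (fun t : ℝ => Real.log 2 + Real.log (Real.sin (π * t))) volume a b := by
    apply IntervalIntegrable.add
    · exact intervalIntegrable_const
    · have h2 : IntervalIntegrable (Real.log ∘ Real.sin) volume (π * a) (π * b) :=
        intervalIntegrable_log_sin
      have h3 := h2.comp_mul_left (c := π)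
      have e1 : π * a / π = a := by field_simp
      have e2 : π * b / π = b := by field_simp
      rw [e1, e2] at h3
      exact h3
  refine h1.congr_ae ?_
  have h4 : ∀ᵐ t : ℝ ∂volume, t ≠ 0 ∧ t ≠ 1 := by
    have h5 : ∀ᵐ t : ℝ ∂volume, t ∉ ({0, 1} : Set ℝ) :=
      (Set.countable_insert.2 (Set.countable_singleton _)).ae_notMem _
    filter_upwards [h5] with t ht
    simp only [Set.mem_insert_iff, Set.mem_singleton_iff, not_or] at ht
    exact ht
  rw [Filter.EventuallyEq, ae_restrict_iff' measurableSet_uIoc]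
  filter_upwards [h4] with t ht htab
  rw [Set.uIoc_of_le hab] at htab
  unfold gg
  have h6 : 0 < Real.sin (π * t) := by
    apply Real.sin_pos_of_pos_of_lt_pi
    · exact mul_pos Real.pi_pos (lt_of_le_of_lt ha htab.1)
    · have : t < 1 := lt_of_le_of_ne (htab.2.trans hb) ht.2
      nlinarith [Real.pi_pos]
  rw [Real.log_mul (by norm_num) h6.ne']

theorem gg_zero_one : ∫ t in (0:ℝ)..1, gg t = 0 := by
  have h1 : ∫ t in (0:ℝ)..1, gg t =
      ∫ t in (0:ℝ)..1, (Real.log 2 + Real.log (Real.sin (π * t))) := by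
    apply intervalIntegral.integral_congr_ae
    have h4 : ∀ᵐ t : ℝ ∂volume, t ≠ 1 := by
      have h5 : ∀ᵐ t : ℝ ∂volume, t ∉ ({1} : Set ℝ) :=
        (Set.countable_singleton _).ae_notMem _
      filter_upwards [h5] with t ht
      exact ht
    filter_upwards [h4] with t ht htab
    rw [Set.uIoc_of_le zero_le_one] at htab
    unfold gg
    have h6 : 0 < Real.sin (π * t) := by
      apply Real.sin_pos_of_pos_of_lt_pi
      · exact mul_pos Real.pi_pos htab.1
      · have : t < 1 := lt_of_le_of_ne htab.2 ht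
        nlinarith [Real.pi_pos]
    rw [Real.log_mul (by norm_num) h6.ne']
  rw [h1, intervalIntegral.integral_add]
  · rw [intervalIntegral.integral_const, intervalIntegral.integral_comp_mul_left
      (fun t => Real.log (Real.sin t)) Real.pi_ne_zero, mul_zero, mul_one,
      integral_log_sin_zero_pi]
    simp only [sub_zero, smul_eq_mul, one_mul]
    field_simp
    ring
  · exact intervalIntegrable_const
  · have h2 : IntervalIntegrable (Real.log ∘ Real.sin) volume (π * 0) (π * 1) :=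
      intervalIntegrable_log_sin
    have h3 := h2.comp_mul_left (c := π)
    have e1 : π * 0 / π = 0 := by simp
    have e2 : π * 1 / π = 1 := by field_simp
    rw [e1, e2] at h3
    exact h3

theorem gg_symm (t : ℝ) : gg (1 - t) = gg t := by
  unfold gg
  have : π * (1 - t) = π - π * t := by ring
  rw [this, Real.sin_pi_sub]

theorem gg_mid (δ : ℝ) (h0 : 0 ≤ δ) (h1 : δ ≤ 1 / 2) :
    ∫ t in δ..(1 - δ), gg t = -(2 * ∫ t in (0:ℝ)..δ, gg t) := by
  have e1 : (∫ t in (0:ℝ)..δ, gg t) + ∫ t in δ..(1 - δ), gg t = ∫ t in (0:ℝ)..(1 - δ), gg t :=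
    intervalIntegral.integral_add_adjacent_intervals (gg_int 0 δ le_rfl (by linarith) h0)
      (gg_int δ (1 - δ) h0 (by linarith) (by linarith))
  have e2 : (∫ t in (0:ℝ)..(1 - δ), gg t) + ∫ t in (1 - δ)..1, gg t = ∫ t in (0:ℝ)..1, gg t :=
    intervalIntegral.integral_add_adjacent_intervals
      (gg_int 0 (1 - δ) le_rfl (by linarith) (by linarith))
      (gg_int (1 - δ) 1 (by linarith) le_rfl (by linarith))
  have e3 : ∫ t in (0:ℝ)..δ, gg (1 - t) = ∫ t in (1 - δ)..(1 - 0), gg t :=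
    intervalIntegral.integral_comp_sub_left gg 1
  have e4 : ∫ t in (0:ℝ)..δ, gg (1 - t) = ∫ t in (0:ℝ)..δ, gg t := by
    simp only [gg_symm]
  rw [gg_zero_one] at e2
  rw [sub_zero] at e3
  rw [e4] at e3
  linarith

theorem ssF_real (δ : ℝ) (h0 : 0 ≤ δ) (h1 : δ ≤ 1) :
    ssF δ = ((∫ t in (0:ℝ)..δ, gg t : ℝ) : ℂ) := by
  unfold ssF
  have e1 : ∫ t in (0:ℝ)..1, Complex.log (2 * Complex.sin (π * (δ : ℂ) * t)) =
      ∫ t in (0:ℝ)..1, ((gg (δ * t) : ℝ) : ℂ) := by
    apply intervalIntegral.integral_congr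
    intro t ht
    rw [Set.uIcc_of_le zero_le_one] at ht
    simp only
    rw [← FF_real (mul_nonneg h0 ht.1) (by nlinarith [ht.1, ht.2])]
    unfold FF
    congr 3
    push_cast
    ring
  rw [e1, intervalIntegral.integral_ofReal, ← Complex.ofReal_mul]
  congr 1
  have e2 := intervalIntegral.smul_integral_comp_mul_left (a := 0) (b := 1) gg δ
  rw [smul_eq_mul, mul_zero, mul_one] at e2
  exact e2

theorem int_FF (δ L : ℝ) (h0 : 0 ≤ δ) (h1 : δ ≤ 1 / 2) (hL : L = 1 - 2 * δ) :
    ∫ x in (0:ℝ)..L, FF ((δ : ℂ) + x) = -(2 * ssF δ) := by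
  have e1 : ∫ x in (0:ℝ)..L, FF ((δ : ℂ) + x) = ∫ x in (0:ℝ)..L, ((gg (δ + x) : ℝ) : ℂ) := by
    apply intervalIntegral.integral_congr
    intro t ht
    rw [Set.uIcc_of_le (by linarith)] at ht
    simp only
    rw [← FF_real (by linarith [ht.1]) (by linarith [ht.2])]
    push_cast
    rfl
  rw [e1, intervalIntegral.integral_ofReal, intervalIntegral.integral_comp_add_left gg δ, hL,
    add_zero, show δ + (1 - 2 * δ) = 1 - δ by ring, gg_mid δ h0 h1, ssF_real δ h0 (by linarith)]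
  push_cast
  ring

/-! ### the product -/

theorem Sd_eq (N d : ℕ) : Sd N d = ∏ k ∈ range d, (2 * Real.sin (π * ((k + 1 : ℕ) : ℝ) / N)) := by
  unfold Sd
  refine prod_congr rfl fun k _ => ?_
  push_cast
  ring

theorem Sd_pos {N d : ℕ} (hd : d < N) : 0 < Sd N d := by
  rw [Sd_eq]
  refine prod_pos fun k hk => ?_
  rw [mem_range] at hk
  have := GapVol.sin_pos_of (M := N) (j := k + 1) (by omega) (by omega)
  positivity

theorem Sd_full {N : ℕ} (hN : 0 < N) : Sd N (N - 1) = N := by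
  rw [Sd_eq]
  exact GapVol.prod_sin N hN

theorem Sd_mul {N n : ℕ} (hn : n < N) : Sd N n * Sd N (N - 1 - n) = N := by
  have hN : 0 < N := by omega
  rw [← Sd_full hN, Sd_eq, Sd_eq, Sd_eq]
  obtain ⟨d, hd⟩ : ∃ d, N - 1 = n + d := ⟨N - 1 - n, by omega⟩
  rw [hd, prod_range_add, show n + d - n = d by omega]
  congr 1
  rw [← prod_range_reflect]
  refine prod_congr rfl fun j hj => ?_
  rw [mem_range] at hj
  have h1 := GapVol.sin_symm (M := N) (j := n + j + 1) (by omega) hN
  have h2 : N - (n + j + 1) = d - 1 - j + 1 := by omega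
  rw [h2] at h1
  rw [h1]

/-- the middle product -/
noncomputable def PP (N d : ℕ) : ℝ :=
  ∏ j ∈ range (N - 2 * d), (2 * Real.sin (π * ((d + j + 1 : ℕ) : ℝ) / N))

theorem PP_pos {N d : ℕ} (h1 : 1 ≤ d) (h2 : 2 * d < N) : 0 < PP N d := by
  unfold PP
  refine prod_pos fun k hk => ?_
  rw [mem_range] at hk
  have := GapVol.sin_pos_of (M := N) (j := d + k + 1) (by omega) (by omega)
  positivity

theorem Sd_PP {N d : ℕ} (h1 : 1 ≤ d) (h2 : 2 * d < N) :
    (Sd N d) ^ 2 * PP N d = N * (2 * Real.sin (π * d / N)) := by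
  have e1 : Sd N (N - d) = Sd N d * PP N d := by
    rw [Sd_eq, Sd_eq, PP]
    have : N - d = d + (N - 2 * d) := by omega
    rw [this, prod_range_add]
  have e2 : Sd N (N - d) = Sd N (N - 1 - d) * (2 * Real.sin (π * d / N)) := by
    have : N - d = (N - 1 - d) + 1 := by omega
    rw [Sd_eq, Sd_eq, this, prod_range_succ]
    congr 2
    have h3 := GapVol.sin_symm (M := N) (j := d) (by omega) (by omega)
    rw [← h3]
    congr 4
    omega
  have e3 := Sd_mul (N := N) (n := d) (by omega)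
  calc (Sd N d) ^ 2 * PP N d = Sd N d * (Sd N d * PP N d) := by ring
    _ = Sd N d * (Sd N (N - 1 - d) * (2 * Real.sin (π * d / N))) := by rw [← e1, e2]
    _ = (Sd N d * Sd N (N - 1 - d)) * (2 * Real.sin (π * d / N)) := by ring
    _ = _ := by rw [e3]

theorem exp_sum {N d : ℕ} (h1 : 1 ≤ d) (h2 : 2 * d < N) :
    Complex.exp (∑ j ∈ range (N - 2 * d), FF ((d : ℂ) / N + ((1 / N : ℝ) : ℂ) * (j + (1 : ℝ)))) =
      (PP N d : ℂ) := by
  have hN : (0 : ℝ) < N := by
    have : 0 < N := by omega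
    exact_mod_cast this
  rw [Complex.exp_sum, PP, Complex.ofReal_prod]
  refine prod_congr rfl fun j hj => ?_
  rw [mem_range] at hj
  have e1 : (d : ℂ) / N + ((1 / N : ℝ) : ℂ) * (j + (1 : ℝ)) =
      ((((d + j + 1 : ℕ) : ℝ) / N : ℝ) : ℂ) := by
    push_cast
    ring
  have h3 : ((d + j + 1 : ℕ) : ℝ) / N ≤ 1 := by
    rw [div_le_one hN]
    have : d + j + 1 ≤ N := by omega
    exact_mod_cast this
  rw [e1, FF_real (by positivity) h3, ← Complex.ofReal_exp]
  congr 1
  unfold gg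
  have h4 := GapVol.sin_pos_of (M := N) (j := d + j + 1) (by omega) (by omega)
  rw [mul_div_assoc] at h4
  rw [Real.exp_log (by positivity), mul_div_assoc]

/-- the basic identity -/
theorem Sd_sq {N d : ℕ} (h1 : 1 ≤ d) (h2 : 2 * d < N) :
    (Sd N d : ℂ) ^ 2 = N * Complex.exp (FF ((d : ℂ) / N) -
      ∑ j ∈ range (N - 2 * d), FF ((d : ℂ) / N + ((1 / N : ℝ) : ℂ) * (j + (1 : ℝ)))) := by
  have hN : (0 : ℝ) < N := by
    have : 0 < N := by omega
    exact_mod_cast this
  have hP := PP_pos h1 h2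
  rw [Complex.exp_sub, exp_sum h1 h2]
  have e1 : Complex.exp (FF ((d : ℂ) / N)) = ((2 * Real.sin (π * d / N) : ℝ) : ℂ) := by
    have e2 : (d : ℂ) / N = (((d : ℝ) / N : ℝ) : ℂ) := by push_cast; rfl
    have h3 : (d : ℝ) / N ≤ 1 := by
      rw [div_le_one hN]
      have : d ≤ N := by omega
      exact_mod_cast this
    rw [e2, FF_real (by positivity) h3, ← Complex.ofReal_exp]
    congr 1
    unfold gg
    have h4 := GapVol.sin_pos_of (M := N) (j := d) (by omega) (by omega)
    rw [mul_div_assoc] at h4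
    rw [Real.exp_log (by positivity), mul_div_assoc]
  rw [e1]
  have h5 := Sd_PP h1 h2
  have h6 : ((Sd N d) ^ 2 : ℝ) = N * ((2 * Real.sin (π * d / N)) / PP N d) := by
    rw [← mul_div_assoc, eq_div_iff hP.ne']
    exact h5
  have h7 : (((Sd N d) ^ 2 : ℝ) : ℂ) = ((N * ((2 * Real.sin (π * d / N)) / PP N d) : ℝ) : ℂ) := by
    rw [h6]
  push_cast at h7 ⊢
  exact h7

/-- the case of positive order -/
theorem main_pos : ∃ b : ℕ → ℝ, ∀ K : ℕ, 1 ≤ K → ∃ C : ℝ, 0 ≤ C ∧ ∀ N : ℕ, 64 ≤ N → ∀ d : ℕ,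
    |(d : ℝ) / N - 1 / 4| < 1 / 16 →
    ∃ e : ℂ, ‖e‖ ≤ C / (N : ℝ) ^ K ∧
      (Sd N d : ℂ) ^ 2 = N * Complex.exp (2 * N * ssF ((d : ℂ) / N) +
        ∑ k ∈ range K, vv b k ((d : ℂ) / N) / (N : ℂ) ^ k + e) := by
  obtain ⟨b, hb⟩ := Pool.Agent.W571.FE.em 1 zero_le_one le_rfl
  obtain ⟨B, hB0, hB⟩ := bound_FF
  refine ⟨b, fun K hK => ?_⟩
  obtain ⟨C, hC0, hC⟩ := hb K
  refine ⟨C * B * 16 ^ (K + 1), by positivity, ?_⟩
  intro N hN d hd
  have hNp : (0 : ℝ) < N := by
    have : 0 < N := by omega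
    exact_mod_cast this
  have hN64 : (64 : ℝ) ≤ N := by exact_mod_cast hN
  rw [abs_lt] at hd
  have hd1 : 3 / 16 < (d : ℝ) / N := by linarith [hd.1]
  have hd2 : (d : ℝ) / N < 5 / 16 := by linarith [hd.2]
  have hd3 : 1 ≤ d := by
    by_contra hh
    have : d = 0 := by omega
    subst this
    norm_num at hd1
  have hd4 : 2 * d < N := by
    rw [div_lt_iff₀ hNp] at hd2
    have : (2 : ℝ) * d < N := by nlinarith
    exact_mod_cast this
  set n := N - 2 * d with hn
  have hnN : (n : ℝ) * (1 / N) = 1 - 2 * ((d : ℝ) / N) := by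
    rw [hn, Nat.cast_sub hd4.le]
    push_cast
    field_simp
  have hz : (d : ℂ) / N = (((d : ℝ) / N : ℝ) : ℂ) := by push_cast; rfl
  have h := hC FF ((d : ℂ) / N) n (1 / N) (1 / 16) B (by positivity)
    (by
      rw [mul_one_div, div_le_div_iff₀ hNp (by norm_num)]
      linarith)
    (by
      intro x hx0 hx1 w hw
      rw [hnN] at hx1
      have hwr := lt_of_le_of_lt (Complex.abs_re_le_norm _) hw
      have hwi := lt_of_le_of_lt (Complex.abs_im_le_norm _) hw
      have e1 : (w - ((d : ℂ) / N + x)).re = w.re - ((d : ℝ) / N + x) := by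
        rw [hz, Complex.sub_re, Complex.add_re, Complex.ofReal_re, Complex.ofReal_re]
      have e2 : (w - ((d : ℂ) / N + x)).im = w.im := by
        rw [hz, Complex.sub_im, Complex.add_im, Complex.ofReal_im, Complex.ofReal_im]
        ring
      rw [e1, abs_lt] at hwr
      rw [e2, abs_lt] at hwi
      have hwK : w ∈ Kc := by
        rw [Kc, Complex.mem_reProdIm, Set.mem_Icc, Set.mem_Icc]
        refine ⟨⟨?_, ?_⟩, ⟨?_, ?_⟩⟩
        · linarith [hwr.1, hwr.2]
        · linarith [hwr.1, hwr.2]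
        · linarith [hwi.1]
        · linarith [hwi.2]
      exact ⟨diff_FF (Kc_sub hwK), hB w hwK⟩)
  set S := ∑ j ∈ range n, FF ((d : ℂ) / N + ((1 / N : ℝ) : ℂ) * (j + (1 : ℝ))) with hS
  have hend : (d : ℂ) / N + n * ((1 / N : ℝ) : ℂ) = 1 - (d : ℂ) / N := by
    have : ((n : ℝ) * (1 / N) : ℝ) = ((1 - 2 * ((d : ℝ) / N) : ℝ)) := hnN
    have h2 : ((n : ℂ) * ((1 / N : ℝ) : ℂ)) = ((1 - 2 * ((d : ℝ) / N) : ℝ) : ℂ) := by
      rw [← this]
      push_cast
      ring
    rw [h2]
    push_cast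
    ring
  have hint : (∫ x in (0:ℝ)..((n : ℝ) * (1 / N)), FF ((d : ℂ) / N + x)) =
      -(2 * ssF ((d : ℂ) / N)) := by
    rw [hz]
    exact int_FF _ _ (by positivity) (by linarith) hnN
  rw [hend, hint] at h
  set Sk := ∑ k ∈ range K, (b k : ℂ) * ((1 / N : ℝ) : ℂ) ^ k *
        (iteratedDeriv k FF (1 - (d : ℂ) / N) - iteratedDeriv k FF ((d : ℂ) / N)) with hSk
  refine ⟨-(S - ((1 / N : ℝ) : ℂ)⁻¹ * -(2 * ssF ((d : ℂ) / N)) - Sk), ?_, ?_⟩
  · rw [norm_neg]
    refine h.trans ?_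
    have hnN' : (n : ℝ) ≤ N := by
      have : n ≤ N := by omega
      exact_mod_cast this
    have e1 : (1 / (N : ℝ) / (1 / 16)) = 16 / N := by field_simp
    rw [e1, div_pow]
    calc C * (n * B * (16 ^ (K + 1) / (N : ℝ) ^ (K + 1)))
        ≤ C * (N * B * (16 ^ (K + 1) / (N : ℝ) ^ (K + 1))) := by gcongr
      _ = C * B * 16 ^ (K + 1) / (N : ℝ) ^ K := by
        rw [pow_succ (N : ℝ) K]
        field_simp
  · rw [Sd_sq hd3 hd4]
    congr 2
    have e1 : ∑ k ∈ range K, vv b k ((d : ℂ) / N) / (N : ℂ) ^ k =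
        FF ((d : ℂ) / N) - Sk := by
      obtain ⟨K', rfl⟩ : ∃ K', K = K' + 1 := ⟨K - 1, by omega⟩
      have e2 : ∀ k ∈ range (K' + 1), vv b k ((d : ℂ) / N) / (N : ℂ) ^ k =
          (if k = 0 then FF ((d : ℂ) / N) else 0) - (b k : ℂ) * ((1 / N : ℝ) : ℂ) ^ k *
          (iteratedDeriv k FF (1 - (d : ℂ) / N) - iteratedDeriv k FF ((d : ℂ) / N)) := by
        intro k _
        unfold vv
        by_cases hk : k = 0
        · subst hk
          simp
        · rw [if_neg hk]
          push_cast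
          rw [div_pow, one_pow]
          ring
      rw [sum_congr rfl e2, sum_sub_distrib, hSk]
      congr 1
      rw [Finset.sum_ite_eq' (range (K' + 1)) 0]
      simp
    rw [e1]
    have e3 : ((1 / N : ℝ) : ℂ)⁻¹ = (N : ℂ) := by
      push_cast
      field_simp
    rw [e3]
    ring

/-- AX-EMS -/
theorem ems : S_EMS := by
  obtain ⟨b, hb⟩ := main_pos
  refine ⟨1 / 16, by norm_num, le_rfl, vv b, ?_, ?_, ?_⟩
  · intro k
    exact (diffOn_vv b k).mono (ball_subset_closedBall.trans ball_sub)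
  · exact fun k => bound_vv b k
  · intro K
    rcases Nat.eq_zero_or_pos K with hK | hK
    · subst hK
      obtain ⟨C, hC0, hC⟩ := hb 1 le_rfl
      obtain ⟨B, hB⟩ := bound_vv b 0
      refine ⟨B + C, ?_⟩
      filter_upwards [eventually_ge_atTop 64] with N hN d hd
      obtain ⟨e, he1, he2⟩ := hC N hN d hd
      have hNp : (1 : ℝ) ≤ N := by
        have : 1 ≤ N := by omega
        exact_mod_cast this
      refine ⟨vv b 0 ((d : ℂ) / N) + e, ?_, ?_⟩
      · rw [pow_zero, div_one]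
        refine (norm_add_le _ _).trans ?_
        have h1 : ‖vv b 0 ((d : ℂ) / N)‖ ≤ B := by
          apply hB
          rw [mem_ball, dist_eq_norm]
          have e1 : (d : ℂ) / N - 1 / 4 = (((d : ℝ) / N - 1 / 4 : ℝ) : ℂ) := by push_cast; rfl
          rw [e1, Complex.norm_real]
          exact hd
        have h2 : C / (N : ℝ) ^ 1 ≤ C := by
          rw [pow_one]
          exact div_le_self hC0 hNp
        linarith
      · rw [he2]
        congr 2
        rw [sum_range_one, sum_range_zero]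
        simp only [pow_zero, div_one]
        ring
    · obtain ⟨C, hC0, hC⟩ := hb K hK
      refine ⟨C, ?_⟩
      filter_upwards [eventually_ge_atTop 64] with N hN d hd
      exact hC N hN d hd

end Pool.Agent.W681.AX
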